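import Pool.Agent.Lib.MP_d2ae2d_co.All.Final

set_option autoImplicit false

namespace Pool.Agent.Results.MP_d2ae2d_co.DecreasingDensities

open Filter Topology

/-- For every uniformity k at least 3 there are k-graphs whose Turan densities decrease strictly. -/
theorem result (k : ℕ) (hk : 3 ≤ k) :
    ∃ (m : ℕ → ℕ) (L : ∀ i, Finset (Finset (Fin (m i)))) (f : ℕ → ℕ → ℕ) (d : ℕ → ℝ),
      (∀ i, ∀ e ∈ L i, e.card = k) ∧
      (∀ i n, IsLeast {t : ℕ | ∀ H : Finset (Finset (Fin n)), (∀ e ∈ H, e.card = k) →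
        H.card = t → ∃ φ : Fin (m i) ↪ Fin n, ∀ e ∈ L i, e.map φ ∈ H} (f i n)) ∧
      (∀ i, Tendsto (fun n : ℕ => (f i n : ℝ) / n.choose k) atTop (𝓝 (d i))) ∧
      StrictAnti d :=
  Pool.Agent.Lib.MP_d2ae2d_co.All.decreasing k hk

end Pool.Agent.Results.MP_d2ae2d_co.DecreasingDensities
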